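import Pool.Agent.Helper20.Griff.Defs

/-!
The algebra of the counterexample: the cubic form of the `15`-dimensional space of `3 × 3`
quaternionic Hermitian matrices, and the positive map `T` on `12 × 12` matrices.
-/

open MvPolynomial Pool.Agent.Helper94.Griff
open scoped ComplexOrder Matrix

namespace Pool.Agent.Helper20.Griff

section General

variable {R : Type*} [CommRing R]

/-- The cubic form (`Pfaffian`) in `15` variables: with `x = (v 0, v 1, v 2)` and the `2 × 2`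
matrices `a = v 3..6`, `b = v 7..10`, `c = v 11..14` (row by row),
`x₁x₂x₃ - x₁ det a - x₂ det b - x₃ det c + tr (c a b)`. -/
def cub (v : Fin 15 → R) : R :=
  v 0 * v 1 * v 2 - v 0 * (v 3 * v 6 - v 4 * v 5) - v 1 * (v 7 * v 10 - v 8 * v 9)
    - v 2 * (v 11 * v 14 - v 12 * v 13)
    + (v 11 * v 3 * v 7 + v 12 * v 5 * v 7 + v 11 * v 4 * v 9 + v 12 * v 6 * v 9
      + v 13 * v 3 * v 8 + v 14 * v 5 * v 8 + v 13 * v 4 * v 10 + v 14 * v 6 * v 10)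

/-- The gradient of `cub`. -/
def sharp (v : Fin 15 → R) : Fin 15 → R :=
  ![v 1 * v 2 - (v 3 * v 6 - v 4 * v 5),
    v 0 * v 2 - (v 7 * v 10 - v 8 * v 9),
    v 0 * v 1 - (v 11 * v 14 - v 12 * v 13),
    - (v 0 * v 6) + v 11 * v 7 + v 13 * v 8,
    v 0 * v 5 + v 11 * v 9 + v 13 * v 10,
    v 0 * v 4 + v 12 * v 7 + v 14 * v 8,
    - (v 0 * v 3) + v 12 * v 9 + v 14 * v 10,
    - (v 1 * v 10) + v 11 * v 3 + v 12 * v 5,
    v 1 * v 9 + v 13 * v 3 + v 14 * v 5,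
    v 1 * v 8 + v 11 * v 4 + v 12 * v 6,
    - (v 1 * v 7) + v 13 * v 4 + v 14 * v 6,
    - (v 2 * v 14) + v 3 * v 7 + v 4 * v 9,
    v 2 * v 13 + v 5 * v 7 + v 6 * v 9,
    v 2 * v 12 + v 3 * v 8 + v 4 * v 10,
    - (v 2 * v 11) + v 5 * v 8 + v 6 * v 10]

/-- The `6 × 6` matrix of the quaternionic Hermitian matrix with coordinates `v`. -/
def quatMat (v : Fin 15 → R) : Matrix (Fin 6) (Fin 6) R :=
  !![v 0, 0, v 11, v 12, v 10, - v 8;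
     0, v 0, v 13, v 14, - v 9, v 7;
     v 14, - v 12, v 1, 0, v 3, v 4;
     - v 13, v 11, 0, v 1, v 5, v 6;
     v 7, v 8, v 6, - v 4, v 2, 0;
     v 9, v 10, - v 5, v 3, 0, v 2]

/-- The coordinates of `X + J Xᵀ J⁻¹`. -/
def coordMat (X : Matrix (Fin 6) (Fin 6) R) : Fin 15 → R :=
  ![X 0 0 + X 1 1, X 2 2 + X 3 3, X 4 4 + X 5 5,
    X 2 4 + X 5 3, X 2 5 - X 4 3, X 3 4 - X 5 2, X 3 5 + X 4 2,
    X 4 0 + X 1 5, X 4 1 - X 0 5, X 5 0 - X 1 4, X 5 1 + X 0 4,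
    X 0 2 + X 3 1, X 0 3 - X 2 1, X 1 2 - X 3 0, X 1 3 + X 2 0]

/-- The reflection `x ↦ tr(x) 1 - x`. -/
def reflect (v : Fin 15 → R) : Fin 15 → R :=
  ![v 1 + v 2, v 0 + v 2, v 0 + v 1, - v 3, - v 4, - v 5, - v 6, - v 7, - v 8, - v 9, - v 10,
    - v 11, - v 12, - v 13, - v 14]

/-- The first diagonal `6 × 6` block. -/
def blk₁ (X : Matrix (Fin 12) (Fin 12) R) : Matrix (Fin 6) (Fin 6) R :=
  X.submatrix (Fin.castAdd 6) (Fin.castAdd 6)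

/-- The second diagonal `6 × 6` block. -/
def blk₂ (X : Matrix (Fin 12) (Fin 12) R) : Matrix (Fin 6) (Fin 6) R :=
  X.submatrix (Fin.natAdd 6) (Fin.natAdd 6)

/-- The linear map `T` on `12 × 12` matrices: with `E(Y) = Y + J Yᵀ J⁻¹`,
`T(X) = diag (E(X₁₁) + E(X₂₂), tr(X₁₁) 1 - E(X₁₁) + E(X₂₂))`. -/
def Tmat (X : Matrix (Fin 12) (Fin 12) R) : Matrix (Fin 12) (Fin 12) R :=
  Matrix.reindex finSumFinEquiv finSumFinEquiv
    (Matrix.fromBlocks (quatMat (coordMat (blk₁ X) + coordMat (blk₂ X))) 0 0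
      (quatMat (reflect (coordMat (blk₁ X)) + coordMat (blk₂ X))))

/-- The cubic form `cub` with the (commuting) operators `d i` in place of the variables. -/
def cubOp {S : Type*} [AddCommGroup S] (d : Fin 15 → S → S) (f : S) : S :=
  d 0 (d 1 (d 2 f)) - (d 0 (d 3 (d 6 f)) - d 0 (d 4 (d 5 f)))
    - (d 1 (d 7 (d 10 f)) - d 1 (d 8 (d 9 f)))
    - (d 2 (d 11 (d 14 f)) - d 2 (d 12 (d 13 f)))
    + (d 11 (d 3 (d 7 f)) + d 12 (d 5 (d 7 f)) + d 11 (d 4 (d 9 f)) + d 12 (d 6 (d 9 f))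
      + d 13 (d 3 (d 8 f)) + d 14 (d 5 (d 8 f)) + d 13 (d 4 (d 10 f)) + d 14 (d 6 (d 10 f)))

/-- The gradient `sharp` with the (commuting) operators `d i` in place of the variables. -/
def sharpOp {S : Type*} [AddCommGroup S] (d : Fin 15 → S → S) (f : S) : Fin 15 → S :=
  ![d 1 (d 2 f) - (d 3 (d 6 f) - d 4 (d 5 f)),
    d 0 (d 2 f) - (d 7 (d 10 f) - d 8 (d 9 f)),
    d 0 (d 1 f) - (d 11 (d 14 f) - d 12 (d 13 f)),
    - (d 0 (d 6 f)) + d 11 (d 7 f) + d 13 (d 8 f),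
    d 0 (d 5 f) + d 11 (d 9 f) + d 13 (d 10 f),
    d 0 (d 4 f) + d 12 (d 7 f) + d 14 (d 8 f),
    - (d 0 (d 3 f)) + d 12 (d 9 f) + d 14 (d 10 f),
    - (d 1 (d 10 f)) + d 11 (d 3 f) + d 12 (d 5 f),
    d 1 (d 9 f) + d 13 (d 3 f) + d 14 (d 5 f),
    d 1 (d 8 f) + d 11 (d 4 f) + d 12 (d 6 f),
    - (d 1 (d 7 f)) + d 13 (d 4 f) + d 14 (d 6 f),
    - (d 2 (d 14 f)) + d 3 (d 7 f) + d 4 (d 9 f),
    d 2 (d 13 f) + d 5 (d 7 f) + d 6 (d 9 f),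
    d 2 (d 12 f) + d 3 (d 8 f) + d 4 (d 10 f),
    - (d 2 (d 11 f)) + d 5 (d 8 f) + d 6 (d 10 f)]

end General

/-- The value `T_{jl}` of `T` at the elementary matrix `E_{jl}`. -/
noncomputable def Tcoef (j l : Fin 12) : Matrix (Fin 12) (Fin 12) ℂ :=
  Tmat (Matrix.single j l 1)

/-- The matrix of the `(1,1)`-forms `i dt_p ∧ dt̄_q`. -/
noncomputable def gen (κ : Type*) : Matrix κ κ (Forms κ) := Matrix.of fun p q => X (p, q)

section Sesq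

variable {μ : Type*} [Fintype μ] {r : ℕ}

/-- The matrix `∑_{a,b} φ_a ψ̄_b Γ_{ab}`. -/
noncomputable def sesq (Γ : μ → μ → Matrix (Fin r) (Fin r) ℂ) (φ ψ : μ → ℂ) :
    Matrix (Fin r) (Fin r) ℂ :=
  ∑ a, ∑ b, (φ a * star (ψ b)) • Γ a b

end Sesq

/-- The index type of the monomials `z₀²`, `z₀ z_j`, `z_j z_k`. -/
abbrev Mon (n : ℕ) : Type := Unit ⊕ (Fin n ⊕ (Fin n × Fin n))

/-- The quadratic monomials `z₀²`, `z₀ z_{j+1}`, `z_{j+1} z_{k+1}` on `ℂ^{n+1}`. -/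
def mon {n : ℕ} (z : Fin (n + 1) → ℂ) : Mon n → ℂ :=
  Sum.elim (fun _ => z 0 * z 0) (Sum.elim (fun j => z 0 * z j.succ)
    (fun jk => z jk.1.succ * z jk.2.succ))

/-- The derivative of `mon` at `z` in the direction `ξ`. -/
def dmon {n : ℕ} (z ξ : Fin (n + 1) → ℂ) : Mon n → ℂ :=
  Sum.elim (fun _ => ξ 0 * z 0 + z 0 * ξ 0) (Sum.elim (fun j => ξ 0 * z j.succ + z 0 * ξ j.succ)
    (fun jk => ξ jk.1.succ * z jk.2.succ + z jk.1.succ * ξ jk.2.succ))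

/-- The coefficients of the dual metric
`(|z₀|⁴ + ε |z₀|² |z'|² + K |z'|⁴) 1 + |z₀|² ∑_{j,l} z_j z̄_l T_{jl}`. -/
noncomputable def coefG {n r : ℕ} (T : Fin n → Fin n → Matrix (Fin r) (Fin r) ℂ) (ε K : ℝ) :
    Mon n → Mon n → Matrix (Fin r) (Fin r) ℂ
  | Sum.inl _, Sum.inl _ => 1
  | Sum.inr (Sum.inl j), Sum.inr (Sum.inl l) => T j l + if j = l then (ε : ℂ) • 1 else 0
  | Sum.inr (Sum.inr p), Sum.inr (Sum.inr q) => if p = q then (K : ℂ) • 1 else 0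
  | _, _ => 0

/-- `T(X) = ∑ X_{jl} T_{jl}` maps Hermitian matrices to Hermitian matrices and the matrices `x x*`
to positive semidefinite ones. -/
def IsPositiveMap {n r : ℕ} (T : Fin n → Fin n → Matrix (Fin r) (Fin r) ℂ) : Prop :=
  (∀ j l, (T j l)ᴴ = T l j) ∧ ∀ (x : Fin n → ℂ) (u : Fin r → ℂ), ∃ y : ℝ, 0 ≤ y ∧
    star u ⬝ᵥ (∑ j, ∑ l, (x j * star (x l)) • T j l).mulVec u = y

end Pool.Agent.Helper20.Griff
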