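import Pool.Agent.Helper20.Griff.Proj

/-!
The Hermitian metric `G(z)⁻¹` on `O(2)^r`.
-/

open MvPolynomial Pool.Agent.Helper94.Griff
open scoped ContDiff ComplexOrder Matrix

namespace Pool.Agent.Helper20.Griff

lemma mon_smul {n : ℕ} (c : ℂ) (z : Fin (n + 1) → ℂ) : mon (c • z) = (c ^ 2) • mon z := by
  funext a
  rcases a with _ | j | jk <;> simp [mon] <;> ring

lemma sesq_smul {μ : Type*} [Fintype μ] {r : ℕ} (Γ : μ → μ → Matrix (Fin r) (Fin r) ℂ)
    (c d : ℂ) (φ ψ : μ → ℂ) : sesq Γ (c • φ) (d • ψ) = (c * star d) • sesq Γ φ ψ := by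
  unfold sesq
  simp only [Finset.smul_sum, smul_smul, Pi.smul_apply, smul_eq_mul, star_mul']
  refine Finset.sum_congr rfl fun a _ => Finset.sum_congr rfl fun b _ => ?_
  congr 1
  ring

lemma contDiff_insertNth {n : ℕ} (i k : Fin (n + 1)) (m : WithTop ℕ∞) :
    ContDiff ℂ m (fun w : Fin n → ℂ => (i.insertNth (1 : ℂ) w : Fin (n + 1) → ℂ) k) := by
  refine Fin.succAboveCases i ?_ (fun k => ?_) k
  · simp only [Fin.insertNth_apply_same]
    exact contDiff_const
  · simp only [Fin.insertNth_apply_succAbove]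
    exact contDiff_apply ℂ ℂ k

lemma contDiff_mon {n : ℕ} (i : Fin (n + 1)) (a : Mon n) (m : WithTop ℕ∞) :
    ContDiff ℂ m (fun w : Fin n → ℂ => mon (i.insertNth (1 : ℂ) w) a) := by
  rcases a with _ | j | jk
  · exact (contDiff_insertNth i _ m).mul (contDiff_insertNth i _ m)
  · exact (contDiff_insertNth i _ m).mul (contDiff_insertNth i _ m)
  · exact (contDiff_insertNth i _ m).mul (contDiff_insertNth i _ m)

/-- The dual metric in the `i`-th chart. -/
noncomputable def chartG {n r : ℕ} (T : Fin n → Fin n → Matrix (Fin r) (Fin r) ℂ) (ε K : ℝ)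
    (i : Fin (n + 1)) (w : Fin n → ℂ) : Matrix (Fin r) (Fin r) ℂ :=
  sesq (coefG T ε K) (mon (i.insertNth (1 : ℂ) w)) (mon (i.insertNth (1 : ℂ) w))

lemma contDiff_chartG {n r : ℕ} (T : Fin n → Fin n → Matrix (Fin r) (Fin r) ℂ) (ε K : ℝ)
    (i : Fin (n + 1)) (s t : Fin r) (m : WithTop ℕ∞) :
    ContDiff ℝ m (fun w => chartG T ε K i w s t) := by
  unfold chartG sesq
  simp only [Matrix.sum_apply, Matrix.smul_apply, smul_eq_mul]
  refine ContDiff.sum fun a _ => ContDiff.sum fun b _ => ?_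
  refine ContDiff.mul (ContDiff.mul ?_ ?_) contDiff_const
  · exact (contDiff_mon i a m).restrict_scalars ℝ
  · exact (Complex.conjCLE.toContinuousLinearMap.contDiff (n := m)).comp
      ((contDiff_mon i b m).restrict_scalars ℝ)

lemma contDiff_det {n r : ℕ} (M : (Fin n → ℂ) → Matrix (Fin r) (Fin r) ℂ) (m : WithTop ℕ∞)
    (hM : ∀ s t, ContDiff ℝ m (fun w => M w s t)) : ContDiff ℝ m (fun w => (M w).det) := by
  simp only [Matrix.det_apply']
  refine ContDiff.sum fun σ _ => ContDiff.mul contDiff_const ?_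
  exact contDiff_prod fun s _ => hM _ _

lemma contDiff_adjugate {n r : ℕ} (M : (Fin n → ℂ) → Matrix (Fin r) (Fin r) ℂ) (m : WithTop ℕ∞)
    (hM : ∀ s t, ContDiff ℝ m (fun w => M w s t)) (s t : Fin r) :
    ContDiff ℝ m (fun w => (M w).adjugate s t) := by
  simp only [Matrix.adjugate_apply]
  refine contDiff_det _ m fun a b => ?_
  by_cases h : a = t
  · subst h
    simp only [Matrix.updateRow_self]
    exact contDiff_const
  · simp only [Matrix.updateRow_ne h]
    exact hM _ _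

lemma insertNth_ne_zero {n : ℕ} (i : Fin (n + 1)) (w : Fin n → ℂ) :
    (i.insertNth (1 : ℂ) w : Fin (n + 1) → ℂ) ≠ 0 := fun h => by
  have := congrFun h i
  simp at this

/-- The transition function `(z_j / z_i)²` of `O(2)` in the coordinates of the `i`-th chart. -/
noncomputable def transO {n : ℕ} (r : ℕ) (i j : Fin (n + 1)) (w : Fin n → ℂ) :
    Matrix (Fin r) (Fin r) ℂ :=
  ((i.insertNth (1 : ℂ) w : Fin (n + 1) → ℂ) j ^ 2) • 1

lemma insertNth_trans {n : ℕ} (i j : Fin (n + 1)) (w : Fin n → ℂ)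
    (hj : (i.insertNth (1 : ℂ) w : Fin (n + 1) → ℂ) j ≠ 0) :
    (j.insertNth (1 : ℂ) ((projSpace n).trans i j w) : Fin (n + 1) → ℂ) =
      ((i.insertNth (1 : ℂ) w : Fin (n + 1) → ℂ) j)⁻¹ • (i.insertNth (1 : ℂ) w) :=
  insertNth_coord j (i.insertNth (1 : ℂ) w) hj

lemma chartG_trans {n r : ℕ} (T : Fin n → Fin n → Matrix (Fin r) (Fin r) ℂ) (ε K : ℝ)
    (i j : Fin (n + 1)) (w : Fin n → ℂ)
    (hj : (i.insertNth (1 : ℂ) w : Fin (n + 1) → ℂ) j ≠ 0) :
    chartG T ε K j ((projSpace n).trans i j w) =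
      ((((i.insertNth (1 : ℂ) w : Fin (n + 1) → ℂ) j)⁻¹) ^ 2 *
        star ((((i.insertNth (1 : ℂ) w : Fin (n + 1) → ℂ) j)⁻¹) ^ 2)) • chartG T ε K i w := by
  unfold chartG
  rw [insertNth_trans i j w hj, mon_smul, sesq_smul]

lemma transO_self {n : ℕ} (r : ℕ) (i : Fin (n + 1)) (w : Fin n → ℂ) : transO r i i w = 1 := by
  simp [transO]

lemma transO_cocycle {n : ℕ} (r : ℕ) (i j k : Fin (n + 1)) (w : Fin n → ℂ)
    (hj : (i.insertNth (1 : ℂ) w : Fin (n + 1) → ℂ) j ≠ 0) :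
    transO r i j w * transO r j k ((projSpace n).trans i j w) = transO r i k w := by
  unfold transO
  rw [insertNth_trans i j w hj, smul_mul_assoc, one_mul, smul_smul]
  congr 1
  simp only [Pi.smul_apply, smul_eq_mul]
  field_simp

lemma transO_holo {n : ℕ} (r : ℕ) (i j : Fin (n + 1)) (a b : Fin r) :
    Differentiable ℂ (fun w => transO r i j w a b) := by
  unfold transO
  simp only [Matrix.smul_apply, smul_eq_mul]
  exact (((contDiff_insertNth i j 1).differentiable (by simp)).pow 2).mul_const _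

lemma chartG_inv_smooth {n r : ℕ} (T : Fin n → Fin n → Matrix (Fin r) (Fin r) ℂ) (ε K : ℝ)
    (i : Fin (n + 1)) (hPD : ∀ (w : Fin n → ℂ), (chartG T ε K i w).PosDef) (a b : Fin r) :
    ContDiff ℝ ∞ (fun w => (chartG T ε K i w)⁻¹ a b) := by
  simp only [Matrix.inv_def, Matrix.smul_apply, smul_eq_mul]
  refine ContDiff.mul ?_ (contDiff_adjugate _ _ (fun s t => contDiff_chartG T ε K i s t _) a b)
  simp only [Ring.inverse_eq_inv']
  refine ContDiff.inv (contDiff_det _ _ (fun s t => contDiff_chartG T ε K i s t _)) ?_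
  intro w
  exact (hPD w).det_pos.ne'

lemma chartG_inv_compat {n r : ℕ} (T : Fin n → Fin n → Matrix (Fin r) (Fin r) ℂ) (ε K : ℝ)
    (i j : Fin (n + 1)) (w : Fin n → ℂ) (hPD : (chartG T ε K i w).PosDef)
    (hj : (i.insertNth (1 : ℂ) w : Fin (n + 1) → ℂ) j ≠ 0) :
    (chartG T ε K j ((projSpace n).trans i j w))⁻¹ =
      (transO r i j w)ᴴ * (chartG T ε K i w)⁻¹ * transO r i j w := by
  rw [chartG_trans T ε K i j w hj]
  have hu : IsUnit (chartG T ε K i w).det := hPD.det_pos.ne'.isUnit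
  unfold transO
  set c := (i.insertNth (1 : ℂ) w : Fin (n + 1) → ℂ) j with hc
  have hc0 : (c⁻¹ ^ 2 * star (c⁻¹ ^ 2)) ≠ 0 := by simp [hj]
  have h := Matrix.inv_smul' (A := chartG T ε K i w) (Units.mk0 _ hc0) hu
  have h2 : ((c⁻¹ ^ 2 * star (c⁻¹ ^ 2)) • chartG T ε K i w)⁻¹ =
      (c⁻¹ ^ 2 * star (c⁻¹ ^ 2))⁻¹ • (chartG T ε K i w)⁻¹ := by
    have h3 := h
    simp only [Units.smul_def, Units.val_inv_eq_inv_val, Units.val_mk0] at h3
    exact h3
  rw [h2, Matrix.conjTranspose_smul, Matrix.conjTranspose_one]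
  simp only [smul_mul_assoc, one_mul, mul_smul_comm, mul_one, smul_smul]
  congr 1
  simp only [star_pow, star_inv₀, RCLike.star_def]
  have hc1 : (starRingEnd ℂ) c ≠ 0 := by simpa using hj
  field_simp

/-- The metric `G(z)⁻¹` on `O(2)^r` over `ℙ^n`. -/
noncomputable def bundle {n r : ℕ} (T : Fin n → Fin n → Matrix (Fin r) (Fin r) ℂ)
    (ε K : ℝ) (hPD : ∀ (i : Fin (n + 1)) (w : Fin n → ℂ), (chartG T ε K i w).PosDef) :
    HermitianBundle (projSpace n) r where
  g := fun i j w => transO r i j w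
  g_holo := fun i j a b => (transO_holo r i j a b).differentiableOn
  g_self := fun i w _ => transO_self r i w
  g_cocycle := fun i j k w hj _ => transO_cocycle r i j k w hj.2
  H := fun i w => (chartG T ε K i w)⁻¹
  H_smooth := fun i a b => (chartG_inv_smooth T ε K i (hPD i) a b).contDiffOn
  H_posDef := fun i w _ => (hPD i w).inv
  H_compat := fun i j w hj => chartG_inv_compat T ε K i j w (hPD i w) hj.2

end Pool.Agent.Helper20.Griff
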