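import Pool.Agent.Helper94.Griff.Defs

/-!
Projective manifolds, Hermitian holomorphic vector bundles over them, and Griffiths' conjecture.
-/

open MvPolynomial Pool.Agent.Helper94.Griff
open scoped ContDiff ComplexOrder Matrix

namespace Pool.Agent.Helper20.Griff

/-- A smooth connected complex projective variety `X ⊆ ℙ^N` of dimension `n`, presented as a
closed complex submanifold of `ℙ^N` together with a holomorphic atlas. Points of `ℙ^N` are given by
homogeneous coordinates `z ∈ ℂ^{N+1} ∖ {0}`, a subset of `ℙ^N` is given by the set of all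
homogeneous coordinates of its points. -/
structure ProjectiveManifold (n : ℕ) where
  /-- the dimension of the ambient projective space -/
  N : ℕ
  /-- all homogeneous coordinates of the points of `X` -/
  cone : Set (Fin (N + 1) → ℂ)
  zero_notMem : (0 : Fin (N + 1) → ℂ) ∉ cone
  smul_mem : ∀ c : ℂ, c ≠ 0 → ∀ z ∈ cone, c • z ∈ cone
  /-- `X` is closed in `ℙ^N` -/
  isClosed : IsClosed (cone ∪ {0})
  /-- `X` is connected and nonempty -/
  isConnected : IsConnected cone
  /-- the index set of the atlas -/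
  ι : Type
  /-- the open subset of `ℂ^n` parametrizing the `i`-th coordinate patch -/
  dom : ι → Set (Fin n → ℂ)
  isOpen_dom : ∀ i, IsOpen (dom i)
  /-- the parametrization of the `i`-th patch (homogeneous coordinates of the point) -/
  chart : ι → (Fin n → ℂ) → (Fin (N + 1) → ℂ)
  chart_holo : ∀ i, DifferentiableOn ℂ (chart i) (dom i)
  /-- an open subset of `ℙ^N` whose intersection with `X` is the `i`-th patch -/
  nbhd : ι → Set (Fin (N + 1) → ℂ)
  isOpen_nbhd : ∀ i, IsOpen (nbhd i)
  smul_mem_nbhd : ∀ i, ∀ c : ℂ, c ≠ 0 → ∀ z ∈ nbhd i, c • z ∈ nbhd i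
  /-- the inverse of the `i`-th parametrization, a holomorphic map on an open subset of `ℙ^N` -/
  coord : ι → (Fin (N + 1) → ℂ) → (Fin n → ℂ)
  coord_holo : ∀ i, DifferentiableOn ℂ (coord i) (nbhd i)
  coord_smul : ∀ i, ∀ c : ℂ, c ≠ 0 → ∀ z ∈ nbhd i, coord i (c • z) = coord i z
  chart_mem : ∀ i, ∀ w ∈ dom i, chart i w ∈ cone ∩ nbhd i
  coord_mem : ∀ i, ∀ z ∈ cone ∩ nbhd i, coord i z ∈ dom i
  coord_chart : ∀ i, ∀ w ∈ dom i, coord i (chart i w) = w
  chart_coord : ∀ i, ∀ z ∈ cone ∩ nbhd i, ∃ c : ℂ, c ≠ 0 ∧ chart i (coord i z) = c • z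
  /-- the patches cover `X` -/
  cover : ∀ z ∈ cone, ∃ i, z ∈ nbhd i

/-- The part of the `i`-th coordinate domain that parametrizes the intersection of the `i`-th and
the `j`-th patch. -/
def ProjectiveManifold.overlap {n : ℕ} (X : ProjectiveManifold n) (i j : X.ι) :
    Set (Fin n → ℂ) :=
  {w | w ∈ X.dom i ∧ X.chart i w ∈ X.nbhd j}

/-- The change of coordinates from the `i`-th to the `j`-th patch. -/
def ProjectiveManifold.trans {n : ℕ} (X : ProjectiveManifold n) (i j : X.ι)
    (w : Fin n → ℂ) : Fin n → ℂ :=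
  X.coord j (X.chart i w)

/-- A holomorphic vector bundle `E` of rank `r` over `X` with a Hermitian metric `h`, given by
holomorphic frames `e^i_1, …, e^i_r` over the patches of `X` (every Hermitian holomorphic bundle
over a projective manifold arises in this way from a sufficiently fine atlas). All functions on the
`i`-th patch are written as functions of the coordinate `w ∈ dom i`. -/
structure HermitianBundle {n : ℕ} (X : ProjectiveManifold n) (r : ℕ) where
  /-- transition matrices: `e^j_b = ∑_a (g i j) a b • e^i_a` over the intersection of patches -/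
  g : X.ι → X.ι → (Fin n → ℂ) → Matrix (Fin r) (Fin r) ℂ
  g_holo : ∀ i j a b, DifferentiableOn ℂ (fun w => g i j w a b) (X.overlap i j)
  g_self : ∀ i, ∀ w ∈ X.dom i, g i i w = 1
  g_cocycle : ∀ i j k, ∀ w ∈ X.overlap i j, w ∈ X.overlap i k →
    g i j w * g j k (X.trans i j w) = g i k w
  /-- the matrix of the metric in the frame `e^i`: `⟨u, v⟩ = v* (H i) u` -/
  H : X.ι → (Fin n → ℂ) → Matrix (Fin r) (Fin r) ℂ
  H_smooth : ∀ i a b, ContDiffOn ℝ ∞ (fun w => H i w a b) (X.dom i)
  H_posDef : ∀ i, ∀ w ∈ X.dom i, (H i w).PosDef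
  H_compat : ∀ i j, ∀ w ∈ X.overlap i j, H j (X.trans i j w) = (g i j w)ᴴ * H i w * g i j w

/-- `(E, h)` is Griffiths-positive (at every point, checked in the holomorphic frames). -/
def HermitianBundle.IsGriffithsPositive {n : ℕ} {X : ProjectiveManifold n} {r : ℕ}
    (E : HermitianBundle X r) : Prop :=
  ∀ i, ∀ w ∈ X.dom i, GriffithsPositive (E.H i) w

/-- For `P ∈ ℚ[c_1, …, c_r]`, the coefficient of the volume form `∏_p (i dt_p ∧ dt̄_p)` in the
restriction of the form `P(c_1(E,h), …, c_r(E,h))` at the point with coordinate `w` in the `i`-th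
patch to the span of the tangent vectors `s 1, …, s k`. -/
noncomputable def HermitianBundle.formCoeff {n : ℕ} {X : ProjectiveManifold n} {r : ℕ}
    (E : HermitianBundle X r) {k : ℕ} (P : MvPolynomial (Fin r) ℚ) (i : X.ι) (w : Fin n → ℂ)
    (s : Fin k → Fin n → ℂ) : ℂ :=
  volCoeff (aeval (fun m : Fin r => chern (curvatureForm (curvature (E.H i) w) s) (m + 1)) P)

/-- The `(k,k)`-form `P(c_1(E,h), …, c_r(E,h))` is positive: its restriction to every
`k`-dimensional subspace of every tangent space (with basis `s`) is a strictly positive multiple of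
the volume form. -/
def HermitianBundle.FormPositive {n : ℕ} {X : ProjectiveManifold n} {r : ℕ}
    (E : HermitianBundle X r) (k : ℕ) (P : MvPolynomial (Fin r) ℚ) : Prop :=
  ∀ i, ∀ w ∈ X.dom i, ∀ s : Fin k → Fin n → ℂ, LinearIndependent ℂ s →
    ∃ x : ℝ, 0 < x ∧ E.formCoeff P i w s = x

/-- Griffiths' conjecture: for `P = ∑_{lam ∈ Λ(k,r)} a_lam s_lam ≠ 0`, the form
`P(c_1(E,h), …, c_r(E,h))` is positive for every Griffiths-positive `(E,h)` of rank `r` over every
smooth projective `X` if and only if all `a_lam ≥ 0`. -/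
def GriffithsConjecture : Prop :=
  ∀ r k : ℕ, 1 ≤ r → 1 ≤ k → ∀ a : (Fin k → Fin (r + 1)) → ℚ,
    (∃ lam ∈ partitions k r, a lam ≠ 0) →
    ((∀ (n : ℕ) (X : ProjectiveManifold n) (E : HermitianBundle X r), E.IsGriffithsPositive →
        E.FormPositive k (∑ lam ∈ partitions k r, C (a lam) * schur r lam)) ↔
      ∀ lam ∈ partitions k r, 0 ≤ a lam)

end Pool.Agent.Helper20.Griff
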