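import Pool.Agent.Helper20.Griff.Alg

/-!
Statements of the lemmas of the disproof of Griffiths' conjecture.
-/

open MvPolynomial Pool.Agent.Helper94.Griff
open scoped ContDiff ComplexOrder Matrix

namespace Pool.Agent.Helper20.Griff

/-- A1: the determinant of `quatMat`. -/
def StmtDet : Prop :=
  ∀ (R : Type) [CommRing R] (v : Fin 15 → R), (quatMat v).det = cub v ^ 2

/-- A2: `T` is a positive map. -/
def StmtPos : Prop := IsPositiveMap Tcoef

/-- A3: the functional `volCoeff` on polynomials in the coordinates of the two blocks. -/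
def StmtFun : Prop :=
  ∀ f : MvPolynomial (Fin 15 ⊕ Fin 15) ℂ, f.IsHomogeneous 12 →
    volCoeff (aeval (Sum.elim (coordMat (blk₁ (gen (Fin 12)))) (coordMat (blk₂ (gen (Fin 12))))) f :
      Forms (Fin 12)) =
    constantCoeff
      (cubOp (fun i g => pderiv (Sum.inl i) g) (cubOp (fun i g => pderiv (Sum.inl i) g)
        (cubOp (fun i g => pderiv (Sum.inr i) g) (cubOp (fun i g => pderiv (Sum.inr i) g) f))))

/-- The polynomial `det T(X) = N(x + y)² N(R x + y)²`. -/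
noncomputable def bigG : MvPolynomial (Fin 15 ⊕ Fin 15) ℂ :=
  cub (fun i => X (Sum.inl i) + X (Sum.inr i)) ^ 2 *
    cub (fun i => reflect (fun j => X (Sum.inl j)) i + X (Sum.inr i)) ^ 2

/-- A4: for commuting derivations `d i` and vectors `z, w` with `d_i z_j = d_i w_j = δ_ij`, the
value of `N(d)² (N(z)² N(w)²)`. -/
def StmtK : Prop :=
  ∀ (S : Type) [CommRing S] (d : Fin 15 → Derivation ℤ S S),
    (∀ i j f, d i (d j f) = d j (d i f)) →
    ∀ z w : Fin 15 → S, (∀ i j, d i (z j) = if i = j then 1 else 0) →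
      (∀ i j, d i (w j) = if i = j then 1 else 0) →
      cubOp (fun i f => d i f) (cubOp (fun i f => d i f) (cub z ^ 2 * cub w ^ 2)) =
        720 * (cub w ^ 2 + cub z ^ 2)
        + 48 * ((∑ i, z i * sharp w i) ^ 2 + (∑ i, sharp z i * w i) ^ 2)
        + 7296 * (cub w * cub z)
        + 576 * (cub w * (∑ i, z i * sharp w i) + (∑ i, sharp z i * w i) * cub z)
        + 992 * (cub w * (∑ i, sharp z i * w i) + (∑ i, z i * sharp w i) * cub z)
        + 128 * ((∑ i, z i * sharp w i) * (∑ i, sharp z i * w i))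

/-- The elementary symmetric functions of the eigenvalues. -/
def e₁ {R : Type*} [CommRing R] (v : Fin 15 → R) : R := v 0 + v 1 + v 2

/-- The elementary symmetric functions of the eigenvalues. -/
def e₂ {R : Type*} [CommRing R] (v : Fin 15 → R) : R :=
  v 0 * v 1 + v 0 * v 2 + v 1 * v 2 - (v 3 * v 6 - v 4 * v 5) - (v 7 * v 10 - v 8 * v 9)
    - (v 11 * v 14 - v 12 * v 13)

/-- A5: the values of `N(d)²` on the monomials in `e₁, e₂, e₃ = N`. -/
def StmtE : Prop :=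
  ∀ (S : Type) [CommRing S] (d : Fin 15 → Derivation ℤ S S),
    (∀ i j f, d i (d j f) = d j (d i f)) →
    ∀ z : Fin 15 → S, (∀ i j, d i (z j) = if i = j then 1 else 0) →
      let D : S → S := fun f => cubOp (fun i f => d i f) (cubOp (fun i f => d i f) f)
      D (e₁ z ^ 6) = 720 ∧ D (e₁ z ^ 4 * e₂ z) = 576 ∧ D (e₁ z ^ 3 * cub z) = 288 ∧
      D (e₁ z ^ 2 * e₂ z ^ 2) = 528 ∧ D (e₁ z * e₂ z * cub z) = 432 ∧ D (e₂ z ^ 3) = 288 ∧
      D (cub z ^ 2) = 720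

/-- A6: the value of the pairing (from A4 and A5). -/
def StmtVal : Prop :=
  constantCoeff
      (cubOp (fun i g => pderiv (Sum.inl i) g) (cubOp (fun i g => pderiv (Sum.inl i) g)
        (cubOp (fun i g => pderiv (Sum.inr i) g) (cubOp (fun i g => pderiv (Sum.inr i) g)
          bigG)))) = -341760

/-- A7: the volume coefficient of `det T(X)` (from A1, A3 and A6). -/
def StmtVol : Prop :=
  volCoeff (Tmat (gen (Fin 12))).det = -341760

/-- A8: the same for small strictly positive perturbations of `T`. -/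
def StmtEps : Prop :=
  ∃ ε : ℝ, 0 < ε ∧ ∃ x : ℝ, x < 0 ∧
    volCoeff (Matrix.det (Matrix.of fun a b => ∑ p, ∑ q,
      C ((Tcoef p q + if p = q then (ε : ℂ) • 1 else 0 : Matrix (Fin 12) (Fin 12) ℂ) a b)
        * (X (p, q) : Forms (Fin 12)))) = x

/-- B1: the curvature of the metric `H = G⁻¹`, `G = ∑ φ_a φ̄_b Γ_ab` with `φ` holomorphic. -/
def StmtCurv : Prop :=
  ∀ (n r : ℕ) (μ : Type) [Fintype μ] (Γ : μ → μ → Matrix (Fin r) (Fin r) ℂ)
    (U : Set (Fin n → ℂ)), IsOpen U → ∀ φ : (Fin n → ℂ) → μ → ℂ, ContDiffOn ℂ 2 φ U →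
    (∀ z ∈ U, IsUnit (sesq Γ (φ z) (φ z)).det) →
    ∀ w ∈ U, ∀ j l : Fin n,
      curvature (fun z => (sesq Γ (φ z) (φ z))⁻¹) w j l =
        (sesq Γ (fderiv ℂ φ w (Pi.single j 1)) (fderiv ℂ φ w (Pi.single l 1))
          - sesq Γ (fderiv ℂ φ w (Pi.single j 1)) (φ w) * (sesq Γ (φ w) (φ w))⁻¹ *
            sesq Γ (φ w) (fderiv ℂ φ w (Pi.single l 1))) * (sesq Γ (φ w) (φ w))⁻¹

/-- B2: Griffiths positivity of `H = G⁻¹` from the positivity of the block form (uses B1). -/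
def StmtGriff : Prop :=
  ∀ (n r : ℕ) (μ : Type) [Fintype μ] (Γ : μ → μ → Matrix (Fin r) (Fin r) ℂ),
    (∀ a b, (Γ a b)ᴴ = Γ b a) →
    ∀ U : Set (Fin n → ℂ), IsOpen U → ∀ φ : (Fin n → ℂ) → μ → ℂ, ContDiffOn ℂ 2 φ U →
    (∀ z ∈ U, (sesq Γ (φ z) (φ z)).PosDef) →
    ∀ w ∈ U,
    (∀ ξ : Fin n → ℂ, ξ ≠ 0 → ∀ u p : Fin r → ℂ, u ≠ 0 → ∃ x : ℝ, 0 < x ∧
      star u ⬝ᵥ (sesq Γ (fderiv ℂ φ w ξ) (fderiv ℂ φ w ξ)).mulVec u
      + star u ⬝ᵥ (sesq Γ (fderiv ℂ φ w ξ) (φ w)).mulVec p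
      + star p ⬝ᵥ (sesq Γ (φ w) (fderiv ℂ φ w ξ)).mulVec u
      + star p ⬝ᵥ (sesq Γ (φ w) (φ w)).mulVec p = x) →
    GriffithsPositive (fun z => (sesq Γ (φ z) (φ z))⁻¹) w

/-- B3: the inequality: for `K` large the block form is positive. -/
def StmtIneq : Prop :=
  ∀ (n r : ℕ) (T : Fin n → Fin n → Matrix (Fin r) (Fin r) ℂ), IsPositiveMap T →
    ∀ ε : ℝ, 0 < ε → ∃ K : ℝ, 0 < K ∧
    ∀ z ξ : Fin (n + 1) → ℂ, z ≠ 0 → (∀ c : ℂ, ξ ≠ c • z) → ∀ u p : Fin r → ℂ, u ≠ 0 →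
      ∃ x : ℝ, 0 < x ∧
        star u ⬝ᵥ (sesq (coefG T ε K) (dmon z ξ) (dmon z ξ)).mulVec u
        + star u ⬝ᵥ (sesq (coefG T ε K) (dmon z ξ) (mon z)).mulVec p
        + star p ⬝ᵥ (sesq (coefG T ε K) (mon z) (dmon z ξ)).mulVec u
        + star p ⬝ᵥ (sesq (coefG T ε K) (mon z) (mon z)).mulVec p = x

/-- B4: `G(z)` is positive definite for `z ≠ 0`. -/
def StmtPosDef : Prop :=
  ∀ (n r : ℕ) (T : Fin n → Fin n → Matrix (Fin r) (Fin r) ℂ), IsPositiveMap T →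
    ∀ ε K : ℝ, 0 < ε → 0 < K → ∀ z : Fin (n + 1) → ℂ, z ≠ 0 →
      (sesq (coefG T ε K) (mon z) (mon z)).PosDef

/-- B5: projective space `ℙ^n` with its standard atlas `w ↦ [w_0 : … : 1 : … : w_{n-1}]`. -/
def StmtProj : Prop :=
  ∀ n : ℕ, 1 ≤ n → ∃ X : ProjectiveManifold n, X.N = n

/-- C1: the value of `P = s_{(12, 0, …, 0)} = c_12` on the Chern forms. -/
def StmtSchur : Prop :=
  ∀ (k : ℕ) (_ : 1 ≤ k) (R : Type) [CommRing R] [Algebra ℚ R] (M : Matrix (Fin k) (Fin k) R),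
    (fun j : Fin k => if (j : ℕ) = 0 then Fin.last k else 0) ∈ partitions k k ∧
    aeval (fun m : Fin k => chern M (m + 1))
      (schur k (fun j : Fin k => if (j : ℕ) = 0 then Fin.last k else 0)) = M.det

end Pool.Agent.Helper20.Griff
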