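import Pool.Agent.Helper20.Griff.Bundle
import Pool.Agent.Helper94.Griff.Vol

/-!
Assembly of the disproof of Griffiths' conjecture.
-/

open MvPolynomial Pool.Agent.Helper94.Griff
open scoped ContDiff ComplexOrder Matrix

namespace Pool.Agent.Helper20.Griff

/-- The derivative of the coordinates of `insertNth`. -/
lemma hasFDerivAt_insertNth {n : ℕ} (i k : Fin (n + 1)) (w : Fin n → ℂ) :
    HasFDerivAt (𝕜 := ℂ) (fun w : Fin n → ℂ => (i.insertNth (1 : ℂ) w : Fin (n + 1) → ℂ) k)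
      (fderiv ℂ (fun w : Fin n → ℂ => (i.insertNth (1 : ℂ) w : Fin (n + 1) → ℂ) k) w) w :=
  ((contDiff_insertNth i k 1).differentiable (by simp) w).hasFDerivAt

lemma fderiv_insertNth {n : ℕ} (i k : Fin (n + 1)) (w ξ : Fin n → ℂ) :
    fderiv ℂ (fun w : Fin n → ℂ => (i.insertNth (1 : ℂ) w : Fin (n + 1) → ℂ) k) w ξ =
      (i.insertNth (0 : ℂ) ξ : Fin (n + 1) → ℂ) k := by
  refine Fin.succAboveCases i ?_ (fun k => ?_) k
  · simp only [Fin.insertNth_apply_same]
    simp
  · simp only [Fin.insertNth_apply_succAbove]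
    have : fderiv ℂ (fun w : Fin n → ℂ => w k) w = ContinuousLinearMap.proj k :=
      (ContinuousLinearMap.proj (R := ℂ) (φ := fun _ : Fin n => ℂ) k).fderiv
    rw [this]
    rfl

lemma fderiv_mon {n : ℕ} (i : Fin (n + 1)) (w ξ : Fin n → ℂ) :
    fderiv ℂ (fun w : Fin n → ℂ => mon (i.insertNth (1 : ℂ) w)) w ξ =
      dmon (i.insertNth (1 : ℂ) w) (i.insertNth (0 : ℂ) ξ) := by
  have key : ∀ p q : Fin (n + 1), fderiv ℂ (fun w : Fin n → ℂ =>
      (i.insertNth (1 : ℂ) w : Fin (n + 1) → ℂ) p * (i.insertNth (1 : ℂ) w : Fin (n + 1) → ℂ) q) w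
        ξ = (i.insertNth (0 : ℂ) ξ : Fin (n + 1) → ℂ) p *
          (i.insertNth (1 : ℂ) w : Fin (n + 1) → ℂ) q +
        (i.insertNth (1 : ℂ) w : Fin (n + 1) → ℂ) p *
          (i.insertNth (0 : ℂ) ξ : Fin (n + 1) → ℂ) q := by
    intro p q
    rw [((hasFDerivAt_insertNth i p w).fun_mul (hasFDerivAt_insertNth i q w)).fderiv]
    simp only [add_apply, smul_apply, fderiv_insertNth,
      smul_eq_mul]
    ring
  funext a
  have h : fderiv ℂ (fun w : Fin n → ℂ => mon (i.insertNth (1 : ℂ) w)) w ξ a =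
      fderiv ℂ (fun w : Fin n → ℂ => mon (i.insertNth (1 : ℂ) w) a) w ξ := by
    rw [fderiv_pi (fun a => (contDiff_mon i a 1).differentiable (by simp) w)]
    rfl
  rw [h]
  rcases a with _ | j | jk
  · exact key 0 0
  · exact key 0 j.succ
  · exact key jk.1.succ jk.2.succ

lemma coefG_hermitian {n r : ℕ} (T : Fin n → Fin n → Matrix (Fin r) (Fin r) ℂ)
    (hT : ∀ j l, (T j l)ᴴ = T l j) (ε K : ℝ) (a b : Mon n) :
    (coefG T ε K a b)ᴴ = coefG T ε K b a := by
  rcases a with a | a | a <;> rcases b with b | b | b <;> simp only [coefG,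
    Matrix.conjTranspose_one, Matrix.conjTranspose_zero, Matrix.conjTranspose_add, hT]
  · congr 1
    by_cases h : a = b
    · subst h; simp
    · rw [if_neg h, if_neg (Ne.symm h)]; simp
  · by_cases h : a = b
    · subst h; simp
    · rw [if_neg h, if_neg (Ne.symm h)]; simp

lemma contDiff_mon' {n : ℕ} (i : Fin (n + 1)) (m : WithTop ℕ∞) :
    ContDiff ℂ m (fun w : Fin n → ℂ => mon (i.insertNth (1 : ℂ) w)) :=
  contDiff_pi.2 fun a => contDiff_mon i a m

/-- Griffiths positivity of the metric on `O(2)^r`. -/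
lemma griffithsPositive_chart (hG : StmtGriff) {n r : ℕ}
    (T : Fin n → Fin n → Matrix (Fin r) (Fin r) ℂ) (hT : IsPositiveMap T) (ε K : ℝ)
    (hPD : ∀ (i : Fin (n + 1)) (w : Fin n → ℂ), (chartG T ε K i w).PosDef)
    (hK : ∀ z ξ : Fin (n + 1) → ℂ, z ≠ 0 → (∀ c : ℂ, ξ ≠ c • z) → ∀ u p : Fin r → ℂ, u ≠ 0 →
      ∃ x : ℝ, 0 < x ∧
        star u ⬝ᵥ (sesq (coefG T ε K) (dmon z ξ) (dmon z ξ)).mulVec u
        + star u ⬝ᵥ (sesq (coefG T ε K) (dmon z ξ) (mon z)).mulVec p
        + star p ⬝ᵥ (sesq (coefG T ε K) (mon z) (dmon z ξ)).mulVec u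
        + star p ⬝ᵥ (sesq (coefG T ε K) (mon z) (mon z)).mulVec p = x)
    (i : Fin (n + 1)) (w : Fin n → ℂ) :
    GriffithsPositive (fun w => (chartG T ε K i w)⁻¹) w := by
  refine hG n r (Mon n) (coefG T ε K) (coefG_hermitian T hT.1 ε K) Set.univ isOpen_univ
    (fun w => mon (i.insertNth (1 : ℂ) w)) (contDiff_mon' i 2).contDiffOn
    (fun z _ => hPD i z) w (Set.mem_univ w) ?_
  intro ξ hξ u p hu
  simp only [fderiv_mon]
  refine hK _ _ (insertNth_ne_zero i w) ?_ u p hu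
  intro c hc
  have h0 := congrFun hc i
  simp only [Fin.insertNth_apply_same, Pi.smul_apply, smul_eq_mul, mul_one] at h0
  subst h0
  apply hξ
  funext k
  have := congrFun hc (i.succAbove k)
  simpa using this

lemma mon_center {n : ℕ} : mon ((0 : Fin (n + 1)).insertNth (1 : ℂ) (0 : Fin n → ℂ)) =
    Pi.single (Sum.inl ()) (1 : ℂ) := by
  funext a
  rcases a with _ | j | jk
  · simp [mon]
  · simp [mon]
  · simp [mon]

lemma dmon_center {n : ℕ} (j : Fin n) :
    dmon ((0 : Fin (n + 1)).insertNth (1 : ℂ) (0 : Fin n → ℂ))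
      ((0 : Fin (n + 1)).insertNth (0 : ℂ) (Pi.single j 1)) =
    Pi.single (Sum.inr (Sum.inl j)) (1 : ℂ) := by
  funext a
  rcases a with _ | k | jk
  · simp [dmon]
  · simp [dmon, Pi.single_apply]
  · simp [dmon]

lemma sesq_single {μ : Type*} [Fintype μ] [DecidableEq μ] {r : ℕ}
    (Γ : μ → μ → Matrix (Fin r) (Fin r) ℂ) (a b : μ) :
    sesq Γ (Pi.single a 1) (Pi.single b 1) = Γ a b := by
  unfold sesq
  rw [Finset.sum_eq_single a, Finset.sum_eq_single b]
  · simp
  · intro b' _ hb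
    simp [hb]
  · simp
  · intro a' _ ha
    simp [ha]
  · simp

/-- The curvature at the point `[1 : 0 : … : 0]`. -/
lemma curvature_center (hC : StmtCurv) {n r : ℕ}
    (T : Fin n → Fin n → Matrix (Fin r) (Fin r) ℂ) (ε K : ℝ)
    (hPD : ∀ (w : Fin n → ℂ), (chartG T ε K 0 w).PosDef) (j l : Fin n) :
    curvature (fun w => (chartG T ε K 0 w)⁻¹) 0 j l =
      T j l + if j = l then (ε : ℂ) • 1 else 0 := by
  have h := hC n r (Mon n) (coefG T ε K) Set.univ isOpen_univ
    (fun w => mon ((0 : Fin (n + 1)).insertNth (1 : ℂ) w)) (contDiff_mon' 0 2).contDiffOn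
    (fun z _ => (hPD z).det_pos.ne'.isUnit) 0 (Set.mem_univ _) j l
  simp only [fderiv_mon, mon_center, dmon_center, sesq_single] at h
  show curvature (fun w => (sesq (coefG T ε K) (mon ((0 : Fin (n + 1)).insertNth (1 : ℂ) w))
    (mon ((0 : Fin (n + 1)).insertNth (1 : ℂ) w)))⁻¹) 0 j l = _
  rw [h]
  simp [coefG]

/-- The matrix of `(1,1)`-forms `∑ Θ_{pq} i dt_p ∧ dt̄_q`. -/
noncomputable def formMat {n r : ℕ} (Θ : Fin n → Fin n → Matrix (Fin r) (Fin r) ℂ) :
    Matrix (Fin r) (Fin r) (Forms (Fin n)) :=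
  Matrix.of fun a b => ∑ p, ∑ q, C (Θ p q a b) * X (p, q)

lemma curvatureForm_std {n r : ℕ} (Θ : Fin n → Fin n → Matrix (Fin r) (Fin r) ℂ) :
    curvatureForm Θ (fun p : Fin n => Pi.single p (1 : ℂ)) =
      (C ((1 / (2 * Real.pi) : ℝ) : ℂ) : Forms (Fin n)) • formMat Θ := by
  ext1 a b
  simp only [curvatureForm, formMat, Matrix.of_apply, Matrix.smul_apply, smul_eq_mul,
    Finset.mul_sum]
  refine Finset.sum_congr rfl fun p _ => Finset.sum_congr rfl fun q _ => ?_
  rw [← mul_assoc, ← C_mul]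
  congr 3
  rw [Finset.sum_eq_single p, Finset.sum_eq_single q]
  · simp
  · intro l _ hl
    simp [hl]
  · simp
  · intro j _ hj
    simp [hj]
  · simp

lemma volCoeff_C_mul {n : ℕ} (c : ℂ) (F : Forms (Fin n)) :
    volCoeff (C c * F) = c * volCoeff F := by
  rw [← vol_apply, ← vol_apply, ← smul_eq_C_mul, map_smul, smul_eq_mul]

/-- The partition `(k, 0, …, 0)`. -/
def rowPart (k : ℕ) : Fin k → Fin (k + 1) := fun j => if (j : ℕ) = 0 then Fin.last k else 0

lemma chern_top {k : ℕ} {R : Type*} [CommRing R] (M : Matrix (Fin k) (Fin k) R) :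
    chern M k = M.det := by
  unfold chern
  have h := Polynomial.coeff_det_X_add_C_card M (1 : Matrix (Fin k) (Fin k) R)
  rw [Fintype.card_fin] at h
  rw [← h]
  congr 2
  rw [add_comm]
  congr 1
  ext a b
  by_cases hab : a = b
  · subst hab; simp
  · simp [hab]

/-- The main theorem from the lemmas. -/
theorem main (hPos : StmtPos) (hEps : StmtEps) (hC : StmtCurv) (hG : StmtGriff) (hI : StmtIneq)
    (hPD : StmtPosDef) (hS : StmtSchur) :
    ∃ E : HermitianBundle (projSpace 12) 12,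
      (∀ (i j : Fin 13) (w : Fin 12 → ℂ),
        E.g i j w = ((i.insertNth (1 : ℂ) w : Fin 13 → ℂ) j ^ 2) • 1) ∧
      E.IsGriffithsPositive ∧ rowPart 12 ∈ partitions 12 12 ∧
      ∃ i, ∃ w ∈ (projSpace 12).dom i, ∃ x : ℝ, x < 0 ∧
        volCoeff (chern (curvatureForm (curvature (E.H i) w)
          (fun p : Fin 12 => Pi.single p (1 : ℂ))) 12) = x ∧
        E.formCoeff (schur 12 (rowPart 12)) i w (fun p : Fin 12 => Pi.single p (1 : ℂ)) = x := by
  obtain ⟨ε, hε, x, hx, hvol⟩ := hEps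
  obtain ⟨K, hK, hineq⟩ := hI 12 12 Tcoef hPos ε hε
  have hpd : ∀ (i : Fin (12 + 1)) (w : Fin 12 → ℂ), (chartG Tcoef ε K i w).PosDef :=
    fun i w => hPD 12 12 Tcoef hPos ε K hε hK _ (insertNth_ne_zero i w)
  refine ⟨bundle Tcoef ε K hpd, fun i j w => rfl, ?_, (hS 12 (by norm_num) ℚ 0).1, ?_⟩
  · intro i w _
    exact griffithsPositive_chart hG Tcoef hPos ε K hpd hineq i w
  · have hcurv : curvature (fun w => (chartG Tcoef ε K 0 w)⁻¹) 0 =
        fun j l => Tcoef j l + if j = l then (ε : ℂ) • 1 else 0 := by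
      funext j l
      exact curvature_center hC Tcoef ε K (hpd 0) j l
    have hdet : volCoeff (Matrix.det (curvatureForm (curvature (fun w => (chartG Tcoef ε K 0 w)⁻¹) 0)
        (fun p : Fin 12 => Pi.single p (1 : ℂ)))) = (((1 / (2 * Real.pi)) ^ 12 * x : ℝ) : ℂ) := by
      rw [curvatureForm_std, Matrix.det_smul, hcurv, Fintype.card_fin, ← C_pow, volCoeff_C_mul]
      rw [show formMat (fun j l : Fin 12 => Tcoef j l + if j = l then (ε : ℂ) • 1 else 0) =
        (Matrix.of fun a b => ∑ p, ∑ q,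
      C ((Tcoef p q + if p = q then (ε : ℂ) • 1 else 0 : Matrix (Fin 12) (Fin 12) ℂ) a b)
        * (X (p, q) : Forms (Fin 12))) from rfl, hvol]
      push_cast
      rfl
    have hschur := (hS 12 (by norm_num) (Forms (Fin 12)) (curvatureForm
      (curvature (fun w => (chartG Tcoef ε K 0 w)⁻¹) 0) (fun p : Fin 12 => Pi.single p (1 : ℂ)))).2
    refine ⟨(0 : Fin (12 + 1)), 0, Set.mem_univ _, (1 / (2 * Real.pi)) ^ 12 * x, ?_, ?_, ?_⟩
    · exact mul_neg_of_pos_of_neg (by positivity) hx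
    · rw [← hdet, chern_top]
      rfl
    · rw [← hdet, ← hschur]
      rfl

/-- The explicit example disproves Griffiths' conjecture. -/
theorem not_conjecture
    (h : ∃ E : HermitianBundle (projSpace 12) 12,
      (∀ (i j : Fin 13) (w : Fin 12 → ℂ),
        E.g i j w = ((i.insertNth (1 : ℂ) w : Fin 13 → ℂ) j ^ 2) • 1) ∧
      E.IsGriffithsPositive ∧ rowPart 12 ∈ partitions 12 12 ∧
      ∃ i, ∃ w ∈ (projSpace 12).dom i, ∃ x : ℝ, x < 0 ∧
        volCoeff (chern (curvatureForm (curvature (E.H i) w)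
          (fun p : Fin 12 => Pi.single p (1 : ℂ))) 12) = x ∧
        E.formCoeff (schur 12 (rowPart 12)) i w (fun p : Fin 12 => Pi.single p (1 : ℂ)) = x) :
    ¬ GriffithsConjecture := by
  classical
  obtain ⟨E, -, hE, hmem, i, w, hw, x, hx, -, hval⟩ := h
  intro hconj
  have h1 := (hconj 12 12 (by norm_num) (by norm_num)
    (fun lam => if lam = rowPart 12 then 1 else 0)
    ⟨rowPart 12, hmem, by simp⟩).2 (fun lam _ => by
      split_ifs <;> norm_num) 12 (projSpace 12) E hE i w hw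
    (fun p : Fin 12 => Pi.single p (1 : ℂ)) (Pi.linearIndependent_single_one (Fin 12) ℂ)
  have h2 : (∑ lam ∈ partitions 12 12, C (if lam = rowPart 12 then (1 : ℚ) else 0) *
      schur 12 lam) = schur 12 (rowPart 12) := by
    rw [Finset.sum_eq_single (rowPart 12)]
    · simp
    · intro b _ hb
      simp [hb]
    · intro hn
      exact absurd hmem hn
  rw [h2, hval] at h1
  obtain ⟨y, hy, hxy⟩ := h1
  have : x = y := by exact_mod_cast hxy
  linarith

end Pool.Agent.Helper20.Griff
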