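import Pool.Agent.Helper20.Griff.Goals

/-!
Projective space as a `ProjectiveManifold`, and the Hermitian metric `G(z)⁻¹` on `O(2)^r`.
-/

open MvPolynomial Pool.Agent.Helper94.Griff
open scoped ContDiff ComplexOrder Matrix

namespace Pool.Agent.Helper20.Griff

lemma insertNth_coord {n : ℕ} (j : Fin (n + 1)) (z : Fin (n + 1) → ℂ) (hz : z j ≠ 0) :
    (j.insertNth (1 : ℂ) (fun k => z (j.succAbove k) / z j) : Fin (n + 1) → ℂ) = (z j)⁻¹ • z := by
  funext k
  refine Fin.succAboveCases j ?_ (fun k => ?_) k
  · simp [hz]
  · simp [div_eq_inv_mul]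

lemma differentiable_insertNth {n : ℕ} (i : Fin (n + 1)) :
    Differentiable ℂ (fun w : Fin n → ℂ => (i.insertNth (1 : ℂ) w : Fin (n + 1) → ℂ)) := by
  rw [differentiable_pi]
  intro k
  refine Fin.succAboveCases i ?_ (fun k => ?_) k
  · simp
  · simp only [Fin.insertNth_apply_succAbove]
    exact differentiable_apply k

/-- Projective space `ℙ^n` with its standard atlas `w ↦ [w_0 : … : 1 : … : w_{n-1}]`. -/
noncomputable def projSpace (n : ℕ) : ProjectiveManifold n where
  N := n
  cone := {0}ᶜ
  zero_notMem := by simp
  smul_mem := fun c hc z hz => by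
    simp only [Set.mem_compl_iff, Set.mem_singleton_iff] at hz ⊢
    exact smul_ne_zero hc hz
  isClosed := by
    rw [Set.compl_union_self]; exact isClosed_univ
  isConnected := by
    apply isConnected_compl_singleton_of_one_lt_rank
    rw [← Module.finrank_eq_rank]
    have h : Module.finrank ℝ (Fin (n + 1) → ℂ) = 2 * (n + 1) := by
      rw [Module.finrank_pi_fintype]
      simp [Complex.finrank_real_complex, mul_comm]
    rw [h]
    norm_cast
    omega
  ι := Fin (n + 1)
  dom := fun _ => Set.univ
  isOpen_dom := fun _ => isOpen_univ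
  chart := fun i w => i.insertNth (1 : ℂ) w
  chart_holo := fun i => (differentiable_insertNth i).differentiableOn
  nbhd := fun i => {z | z i ≠ 0}
  isOpen_nbhd := fun i => isOpen_ne_fun (continuous_apply i) continuous_const
  smul_mem_nbhd := fun i c hc z hz => by
    simp only [Set.mem_ofPred_eq, Pi.smul_apply, smul_eq_mul, ne_eq, mul_eq_zero, not_or] at hz ⊢
    exact ⟨hc, hz⟩
  coord := fun i z k => z (i.succAbove k) / z i
  coord_holo := fun i => by
    rw [differentiableOn_pi]
    intro k
    have h1 : Differentiable ℂ (fun z : Fin (n + 1) → ℂ => z (i.succAbove k)) :=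
      differentiable_apply _
    have h2 : Differentiable ℂ (fun z : Fin (n + 1) → ℂ => z i) := differentiable_apply _
    have h3 : ∀ z ∈ {z : Fin (n + 1) → ℂ | z i ≠ 0}, z i ≠ 0 := fun z hz => hz
    simp only [div_eq_mul_inv]
    exact h1.differentiableOn.mul (h2.differentiableOn.inv h3)
  coord_smul := fun i c hc z hz => by
    funext k
    simp only [Pi.smul_apply, smul_eq_mul]
    rw [mul_div_mul_left _ _ hc]
  chart_mem := fun i w _ => by
    constructor
    · simp only [Set.mem_compl_iff, Set.mem_singleton_iff]
      intro h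
      have := congrFun h i
      simp at this
    · simp
  coord_mem := fun _ _ _ => Set.mem_univ _
  coord_chart := fun i w _ => by
    funext k
    simp
  chart_coord := fun i z hz => ⟨(z i)⁻¹, inv_ne_zero hz.2, insertNth_coord i z hz.2⟩
  cover := fun z hz => by
    simp only [Set.mem_compl_iff, Set.mem_singleton_iff] at hz
    by_contra h
    push Not at h
    exact hz (funext fun i => by simpa using h i)

end Pool.Agent.Helper20.Griff
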