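import Pool.Agent.Helper20.Griff.Goals

/-!
`volCoeff (det T(X)) = -341760` from the value of the pairing.
-/

open MvPolynomial Pool.Agent.Helper94.Griff
open scoped ContDiff ComplexOrder Matrix

namespace Pool.Agent.Helper20.Griff

lemma map_cub {R S : Type*} [CommRing R] [CommRing S] (f : R →+* S) (v : Fin 15 → R) :
    f (cub v) = cub (fun i => f (v i)) := by
  simp only [cub, map_add, map_sub, map_mul]

lemma map_reflect {R S : Type*} [CommRing R] [CommRing S] (f : R →+* S) (v : Fin 15 → R)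
    (i : Fin 15) : f (reflect v i) = reflect (fun i => f (v i)) i := by
  fin_cases i <;> simp [reflect]

lemma det_Tmat (hD : StmtDet) {R : Type} [CommRing R] (X : Matrix (Fin 12) (Fin 12) R) :
    (Tmat X).det = cub (coordMat (blk₁ X) + coordMat (blk₂ X)) ^ 2 *
      cub (reflect (coordMat (blk₁ X)) + coordMat (blk₂ X)) ^ 2 := by
  unfold Tmat
  rw [Matrix.det_reindex_self, Matrix.det_fromBlocks_zero₂₁, hD, hD]

lemma isHomogeneous_cub {σ : Type*} (v : Fin 15 → MvPolynomial σ ℂ)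
    (hv : ∀ i, (v i).IsHomogeneous 1) : (cub v).IsHomogeneous 3 := by
  have h2 : ∀ i j, (v i * v j).IsHomogeneous 2 := fun i j => (hv i).mul (hv j)
  have h3 : ∀ i j k, (v i * v j * v k).IsHomogeneous 3 := fun i j k => (h2 i j).mul (hv k)
  have h3' : ∀ i j k l m, (v i * (v j * v k - v l * v m)).IsHomogeneous 3 := fun i j k l m =>
    (hv i).mul ((h2 j k).sub (h2 l m))
  unfold cub
  exact ((((h3 _ _ _).sub (h3' _ _ _ _ _)).sub (h3' _ _ _ _ _)).sub (h3' _ _ _ _ _)).add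
    (((((((((h3 _ _ _).add (h3 _ _ _)).add (h3 _ _ _)).add (h3 _ _ _)).add (h3 _ _ _)).add
      (h3 _ _ _)).add (h3 _ _ _)).add (h3 _ _ _)))

lemma isHomogeneous_reflect {σ : Type*} (v : Fin 15 → MvPolynomial σ ℂ)
    (hv : ∀ i, (v i).IsHomogeneous 1) (i : Fin 15) : (reflect v i).IsHomogeneous 1 := by
  have hn : ∀ i, (- v i).IsHomogeneous 1 := fun i => (hv i).neg
  fin_cases i
  · exact (hv _).add (hv _)
  · exact (hv _).add (hv _)
  · exact (hv _).add (hv _)
  all_goals exact hn _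

lemma isHomogeneous_bigG : bigG.IsHomogeneous 12 := by
  unfold bigG
  have h1 := isHomogeneous_cub (fun i => (X (Sum.inl i) + X (Sum.inr i) :
    MvPolynomial (Fin 15 ⊕ Fin 15) ℂ)) (fun i => (isHomogeneous_X _ _).add (isHomogeneous_X _ _))
  have h2 := isHomogeneous_cub (fun i => (reflect (fun j => X (Sum.inl j)) i + X (Sum.inr i) :
    MvPolynomial (Fin 15 ⊕ Fin 15) ℂ)) (fun i =>
      (isHomogeneous_reflect _ (fun j => isHomogeneous_X _ _) i).add (isHomogeneous_X _ _))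
  exact (h1.pow 2).mul (h2.pow 2)

theorem vol (hD : StmtDet) (hF : StmtFun) (hV : StmtVal) : StmtVol := by
  unfold StmtVol
  have h := hF bigG isHomogeneous_bigG
  rw [hV] at h
  rw [det_Tmat hD, ← h]
  congr 1
  unfold bigG
  simp only [map_mul, map_pow]
  have e1 := map_cub (aeval (R := ℂ) (Sum.elim (coordMat (blk₁ (gen (Fin 12))))
    (coordMat (blk₂ (gen (Fin 12))))) : MvPolynomial (Fin 15 ⊕ Fin 15) ℂ →ₐ[ℂ] Forms (Fin 12)).toRingHom
    (fun i => (X (Sum.inl i) + X (Sum.inr i) : MvPolynomial (Fin 15 ⊕ Fin 15) ℂ))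
  have e2 := map_cub (aeval (R := ℂ) (Sum.elim (coordMat (blk₁ (gen (Fin 12))))
    (coordMat (blk₂ (gen (Fin 12))))) : MvPolynomial (Fin 15 ⊕ Fin 15) ℂ →ₐ[ℂ] Forms (Fin 12)).toRingHom
    (fun i => (reflect (fun j => X (Sum.inl j)) i + X (Sum.inr i) :
      MvPolynomial (Fin 15 ⊕ Fin 15) ℂ))
  simp only [AlgHom.toRingHom_eq_coe, RingHom.coe_coe, map_add, aeval_X, Sum.elim_inl,
    Sum.elim_inr] at e1 e2
  rw [e1, e2]
  congr 3
  funext i
  have e3 := map_reflect (aeval (R := ℂ) (Sum.elim (coordMat (blk₁ (gen (Fin 12))))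
    (coordMat (blk₂ (gen (Fin 12))))) : MvPolynomial (Fin 15 ⊕ Fin 15) ℂ →ₐ[ℂ] Forms (Fin 12)).toRingHom
    (fun j => X (Sum.inl j)) i
  simp only [AlgHom.toRingHom_eq_coe, RingHom.coe_coe, aeval_X, Sum.elim_inl] at e3
  rw [e3]
  rfl

end Pool.Agent.Helper20.Griff
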